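import Pool.Agent.V5helper50.RC.Stm
import Pool.Agent.V5helper37.RS.Com

/-!
# Project RC: common lemmas for the upper and the lower bound
-/

set_option autoImplicit false

open Finset MeasureTheory ProbabilityTheory

namespace Pool.Agent.V5helper37.RC

open Pool.Agent.V5helper50.RC
open Pool.Agent.V5helper50.RS (av pr Tk M Tk_pos pr_mono pr_or pr_union)
open Pool.Agent.V5helper37.RS (loglin expb)

theorem R_congr {k : ℕ} {q t t' : ℕ → ℕ} {n : ℕ} (h : ∀ x < n, t x = t' x) (j u : ℕ) :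
    R k q t j n u = R k q t' j n u := by
  unfold R
  congr 1
  apply Finset.filter_congr
  intro x hx
  have h1 : ∀ i, A k q t (x i) = A k q t' (x i) := by
    intro i
    have := Fintype.mem_piFinset.mp hx i
    unfold A
    rw [h _ (mem_range.mp this)]
  simp only [h1]

theorem F_congr {k : ℕ} {q t t' : ℕ → ℕ} {x : ℕ} (h : ∀ y ≤ x, t y = t' y) (j u : ℕ) :
    F k q j u x t = F k q j u x t' := by
  unfold F
  have h1 : A k q t x = A k q t' x := by unfold A; rw [h x le_rfl]
  rw [h1]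
  apply Finset.sum_congr rfl
  intro i _
  rw [R_congr (fun y hy => h y hy.le)]

theorem Bd_le {k j d' : ℕ} (hkd : k ≤ d') (hj : j ≤ d') {C : ℝ} (hC : 0 ≤ C) {L : ℕ} (hL : 1 ≤ L) :
    Bd k C j L ≤ C * (1 + Real.log L) ^ (2 * d') * ((L : ℝ) ^ d' / (L : ℝ) ^ k) := by
  have hL1 : (1 : ℝ) ≤ L := by exact_mod_cast hL
  have hL0 : (0 : ℝ) < L := by linarith
  have hlog : 0 ≤ Real.log L := Real.log_nonneg hL1
  unfold Bd
  have h1 : (1 + Real.log L) ^ (2 * j) ≤ (1 + Real.log L) ^ (2 * d') :=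
    pow_le_pow_right₀ (by linarith) (by omega)
  have h2 : max 1 ((L : ℝ) ^ j / (L : ℝ) ^ k) ≤ (L : ℝ) ^ d' / (L : ℝ) ^ k := by
    apply max_le
    · rw [one_le_div (by positivity)]
      exact pow_le_pow_right₀ hL1 hkd
    · apply div_le_div_of_nonneg_right _ (by positivity)
      exact pow_le_pow_right₀ hL1 hj
  exact mul_le_mul (mul_le_mul_of_nonneg_left h1 hC) h2 (le_trans zero_le_one (le_max_left _ _))
    (by positivity)

end Pool.Agent.V5helper37.RC
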