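import Pool.Agent.V5helper37.RC.Com

/-!
# Project RC: the lower bound
-/

set_option autoImplicit false

open Finset MeasureTheory ProbabilityTheory

namespace Pool.Agent.V5helper37.RC

open Pool.Agent.V5helper50.RC
open Pool.Agent.V5helper50.RS (av pr Tk M Tk_pos pr_mono pr_or pr_union)
open Pool.Agent.V5helper37.RS (loglin expb)

theorem Rz_congr {k : ℕ} {q t t' : ℕ → ℕ} {e L : ℕ} (h : ∀ x, e < x → x ≤ L → t x = t' x)
    (hL : 2 * e ≤ L) (j u : ℕ) : Rz k q t e L j u = Rz k q t' e L j u := by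
  unfold Rz
  congr 1
  apply Finset.filter_congr
  rintro ⟨z, x⟩ hx
  rw [mem_product, Fintype.mem_piFinset, mem_Ioc] at hx
  have h1 : ∀ i, A k q t (z i) = A k q t' (z i) := by
    intro i
    have := mem_Ioc.mp (hx.1 i)
    unfold A
    rw [h _ this.1 (this.2.trans hL)]
  have h2 : A k q t x = A k q t' x := by
    have h3 := hx.2
    simp only at h3
    unfold A
    rw [h _ (by omega) h3.2]
  simp only [h1, h2]

theorem Rz_le {k : ℕ} {q : ℕ → ℕ} (t : ℕ → ℕ) {e L : ℕ} (h : 2 * e ≤ L) (j u : ℕ) :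
    Rz k q t e L j u ≤ R k q t (j + 1) (L + 1) u := by
  unfold Rz R
  apply Finset.card_le_card_of_injOn
    (fun p : (Fin j → ℕ) × ℕ => (Fin.cons p.2 p.1 : Fin (j + 1) → ℕ))
  · rintro ⟨z, x⟩ hp
    rw [Finset.mem_coe, mem_filter, mem_product, Fintype.mem_piFinset] at hp
    simp only [mem_Ioc] at hp
    simp only [Finset.coe_filter, Set.mem_setOf_eq, Fintype.mem_piFinset, mem_range]
    refine ⟨?_, ?_⟩
    · intro i
      refine Fin.cases ?_ (fun i => ?_) i
      · have := hp.1.2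
        simp only [Fin.cons_zero]
        omega
      · have := hp.1.1 i
        simp only [Fin.cons_succ]
        omega
    · rw [Fin.sum_univ_succ]
      simp only [Fin.cons_zero, Fin.cons_succ]
      have := hp.2
      omega
  · rintro ⟨z, x⟩ _ ⟨z', x'⟩ _ hh
    have h2 : (Fin.cons x z : Fin (j + 1) → ℕ) = Fin.cons x' z' := hh
    have h3 := Fin.cons_injective2 h2
    obtain ⟨rfl, rfl⟩ := h3
    rfl

/-- splitting off two coordinates -/
theorem sum_Rz_le {k : ℕ} {q : ℕ → ℕ} (t : ℕ → ℕ) {e L n₁ n₂ : ℕ} (h : 2 * e ≤ L)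
    (hn : n₂ ≤ L + 1) (j u : ℕ) :
    ∑ x ∈ Ico n₁ n₂, (if A k q t x ≤ u then Rz k q t e L j (u - A k q t x) else 0) ≤
      R k q t (j + 2) (L + 1) u := by
  classical
  have h1 : ∀ x ∈ Ico n₁ n₂, (if A k q t x ≤ u then Rz k q t e L j (u - A k q t x) else 0) =
      ((((Fintype.piFinset fun _ : Fin j => Ioc e (2 * e)) ×ˢ Ioc (2 * e) L).filter
        (fun p => A k q t x + (∑ i, A k q t (p.1 i) + A k q t p.2) = u))).card := by
    intro x _
    split_ifs with hx
    · unfold Rz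
      congr 1
      apply Finset.filter_congr
      intro y _
      constructor
      · intro hy; omega
      · intro hy; omega
    · symm
      rw [Finset.card_eq_zero, Finset.filter_eq_empty_iff]
      intro y _ hy
      omega
  rw [Finset.sum_congr rfl h1, ← Finset.card_sigma]
  unfold R
  apply Finset.card_le_card_of_injOn
    (fun p : (_ : ℕ) × ((Fin j → ℕ) × ℕ) =>
      (Fin.cons p.1 (Fin.cons p.2.2 p.2.1 : Fin (j + 1) → ℕ) : Fin (j + 2) → ℕ))
  · rintro ⟨b, z, x⟩ hp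
    simp only [Finset.coe_sigma, Set.mem_sigma_iff, Finset.mem_coe, mem_Ico, mem_filter,
      mem_product, Fintype.mem_piFinset, mem_Ioc] at hp
    simp only [Finset.coe_filter, Set.mem_setOf_eq, Fintype.mem_piFinset, mem_range]
    refine ⟨?_, ?_⟩
    · intro i
      refine Fin.cases ?_ (fun i => ?_) i
      · have := hp.1.2
        simp only [Fin.cons_zero]
        omega
      · refine Fin.cases ?_ (fun i => ?_) i
        · have := hp.2.1.2
          simp only [Fin.cons_succ, Fin.cons_zero]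
          omega
        · have := hp.2.1.1 i
          simp only [Fin.cons_succ]
          omega
    · rw [Fin.sum_univ_succ, Fin.sum_univ_succ]
      simp only [Fin.cons_zero, Fin.cons_succ]
      have := hp.2.2
      omega
  · rintro ⟨b, z, x⟩ _ ⟨b', z', x'⟩ _ hh
    have h2 : (Fin.cons b (Fin.cons x z : Fin (j + 1) → ℕ) : Fin (j + 2) → ℕ) =
      Fin.cons b' (Fin.cons x' z' : Fin (j + 1) → ℕ) := hh
    have h3 := Fin.cons_injective2 h2
    obtain ⟨rfl, h4⟩ := h3
    obtain ⟨rfl, rfl⟩ := Fin.cons_injective2 h4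
    rfl

theorem t_LOW2 : S_LOW2 := by
  classical
  intro hCHL hLOWM hBND k K q d hk hd hq κ hκ
  obtain ⟨j, rfl⟩ : ∃ j, d = j + 2 := ⟨d - 2, by omega⟩
  have hkd : k ≤ j + 1 := by omega
  obtain ⟨c, hc, L1, hL1, hLOWM⟩ := hLOWM k K q (j + 2) hk hd hq
  refine ⟨c * κ / 2, by positivity, ?_⟩
  obtain ⟨C₁, hC₁, hBND⟩ := hBND k K q (j + 1) hk hq
  obtain ⟨L2, hL2, hlogl⟩ := loglin (2 * (j + 1) + 1)
    ((2 * k + 2) * (8 * C₁)) (c * κ) (by positivity)
  refine ⟨C₁ + 1, max L1 L2, le_trans hL1 (le_max_left _ _), ?_⟩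
  intro L hL
  have hLL1 : L1 ≤ L := (le_max_left _ _).trans hL
  have hLL2 : L2 ≤ L := (le_max_right _ _).trans hL
  have hL1' : 1 ≤ L := hL1.trans hLL1
  have hLr : (1 : ℝ) ≤ L := by exact_mod_cast hL1'
  have hL0 : (0 : ℝ) < L := by linarith
  have hlog : 0 ≤ Real.log L := Real.log_nonneg hLr
  have hT : ∀ x, 0 < Tk k x := Tk_pos k
  obtain ⟨n₁, n₂, hn12, hn2, hLOWM⟩ := hLOWM L hLL1
  have hj2 : j + 2 - 2 = j := by omega
  have hj1 : j + 2 - 1 = j + 1 := by omega
  rw [hj2] at hLOWM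
  rw [hj1] at hLOWM ⊢
  set e : ℕ := L / (16 * (j + 2)) with he
  have heL : e ≤ L / 16 := by
    rw [he]
    exact Nat.div_le_div_left (by omega) (by norm_num)
  have heL2 : 2 * e ≤ L := by omega
  have hn2L : n₂ ≤ L + 1 := by omega
  have hn1L : n₁ ≤ L := by omega
  set Y : ℝ := (L : ℝ) ^ (j + 1) / (L : ℝ) ^ k with hY
  have hY0 : 0 < Y := by positivity
  set B : ℝ := C₁ * (1 + Real.log L) ^ (2 * (j + 1)) * Y with hB
  have hlog1 : 0 < 1 + Real.log L := by linarith
  have hB0 : 0 < B := by positivity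
  set lam : ℝ := (2 * k + 2) * (1 + Real.log L) with hlam
  have hX : (L : ℝ) ^ (j + 2) / (L : ℝ) ^ k = L * Y := by
    rw [hY, show j + 2 = (j + 1) + 1 by omega, pow_succ]; ring
  rw [hX]
  have hqpos : ∀ x, (0 : ℝ) < (q x : ℝ) ^ (j + 1) := by
    intro x
    have : (0 : ℝ) < (q x : ℝ) := by exact_mod_cast hq.pos x
    positivity
  -- the inequality for large `L`
  have hkey : lam ≤ c * κ * (L * Y) / (8 * B) := by
    have h1 := hlogl L hLL2
    rw [le_div_iff₀ (by positivity)]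
    calc lam * (8 * B) =
        (2 * k + 2) * (8 * C₁) * (1 + Real.log L) ^ (2 * (j + 1) + 1) * Y := by
          rw [hlam, hB, pow_succ (1 + Real.log L)]; ring
      _ ≤ c * κ * L * Y := mul_le_mul_of_nonneg_right h1 hY0.le
      _ = c * κ * (L * Y) := by ring
  -- the functions
  let f : ℕ → ℕ → (ℕ → ℕ) → ℝ := fun u x t =>
    ((if A k q t x ≤ u then Rz k q t e L j (u - A k q t x) else 0 : ℕ) : ℝ)
  let G : (ℕ → ℕ) → Prop := fun t => ∀ v ≤ (L + 1) ^ k, (Rz k q t e L j v : ℝ) ≤ B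
  let E0 : (ℕ → ℕ) → Prop := fun t => ∃ i ≤ j + 1, ∃ n ≤ L + 1, ∃ u ≤ (L + 1) ^ k,
    Bd k C₁ i L < (R k q t i n u : ℝ)
  let good : ℕ → Prop := fun u => ∀ x ≤ L, κ * (q x : ℝ) ^ (j + 1) ≤ M k (q x) (j + 2) u
  let mu : ℕ → ℝ := fun u => c * (L * Y) * ((M k (q n₁) (j + 2) u : ℝ) / (q n₁ : ℝ) ^ (j + 1))
  let E1 : ℕ → (ℕ → ℕ) → Prop := fun u t => G t ∧ ∑ x ∈ Ico n₁ n₂, f u x t < mu u / 2
  have hmu : ∀ u, good u → c * κ * (L * Y) ≤ mu u := by
    intro u hu
    have h1 : κ ≤ (M k (q n₁) (j + 2) u : ℝ) / (q n₁ : ℝ) ^ (j + 1) := by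
      rw [le_div_iff₀ (hqpos n₁)]
      exact hu n₁ hn1L
    calc c * κ * (L * Y) = c * (L * Y) * κ := by ring
      _ ≤ mu u := mul_le_mul_of_nonneg_left h1 (by positivity)
  have hG : ∀ t : ℕ → ℕ, ¬ E0 t → G t := by
    intro t ht v hv
    simp only [E0] at ht
    push_neg at ht
    have h1 := (ht (j + 1) le_rfl (L + 1) le_rfl v hv).trans (Bd_le hkd le_rfl (by linarith) hL1')
    have h2 : (Rz k q t e L j v : ℝ) ≤ R k q t (j + 1) (L + 1) v := by
      exact_mod_cast Rz_le t heL2 j v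
    exact h2.trans h1
  have hE1 : ∀ u, L ^ k ≤ u → u < (L + 1) ^ k →
      pr (Tk k) (L + 1) (E1 u) ≤ Real.exp (-(mu u / (8 * B))) := by
    intro u hu1 hu2
    apply hCHL (Tk k) hT n₁ n₂ (L + 1) (f u) G B (mu u) hn12 hn2L hB0
    · intro x _ _ t
      exact Nat.cast_nonneg _
    · intro x hx1 hx2 t t' h hx'
      simp only [f]
      have h1 : A k q t x = A k q t' x := by unfold A; rw [hx']
      rw [h1, Rz_congr (fun y hy1 hy2 => h y (by omega) (Or.inr (by omega))) heL2]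
    · intro t t' h
      simp only [G]
      have h1 : ∀ v, Rz k q t e L j v = Rz k q t' e L j v := fun v =>
        Rz_congr (fun y hy1 hy2 => h y (by omega) (Or.inr (by omega))) heL2 _ _
      simp only [h1]
    · intro t ht hGt
      refine ⟨?_, ?_⟩
      · intro x _ _
        simp only [f]
        split_ifs with h
        · exact hGt (u - A k q t x) ((Nat.sub_le _ _).trans hu2.le)
        · rw [Nat.cast_zero]
          exact hB0.le
      · have h1 := hLOWM u hu1 hu2 t ht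
        rw [hX] at h1
        refine h1.trans (le_of_eq ?_)
        apply Finset.sum_congr rfl
        intro x hx
        rw [mem_Ico] at hx
        congr 1
        apply Finset.sum_congr rfl
        intro v _
        simp only [f]
        have h2 : A k q (Function.update t x v) x = x ^ k + q x * v := by
          unfold A
          rw [Function.update_self]
        rw [h2, Rz_congr (t := Function.update t x v) (t' := t)
          (fun y hy1 _ => Function.update_of_ne (by omega) _ _) heL2]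
        split_ifs
        · rfl
        · rw [Nat.cast_zero]
  have hsub : ∀ t : ℕ → ℕ, (∀ x, t x < Tk k x) →
      (∃ u, L ^ k ≤ u ∧ u < (L + 1) ^ k ∧
        (∀ x ≤ L, κ * (q x : ℝ) ^ (j + 1) ≤ M k (q x) (j + 2) u) ∧
        (R k q t (j + 2) (L + 1) u : ℝ) < c * κ / 2 * (L * Y)) →
      E0 t ∨ ∃ u ∈ (Ico (L ^ k) ((L + 1) ^ k)).filter good, E1 u t := by
    rintro t ht ⟨u, hu1, hu2, hgood, hu⟩
    by_cases h0 : E0 t
    · exact Or.inl h0
    · right
      refine ⟨u, mem_filter.mpr ⟨mem_Ico.mpr ⟨hu1, hu2⟩, hgood⟩, hG t h0, ?_⟩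
      have h1 : ∑ x ∈ Ico n₁ n₂, f u x t ≤ (R k q t (j + 2) (L + 1) u : ℝ) := by
        simp only [f]
        rw [← Nat.cast_sum]
        exact_mod_cast sum_Rz_le t heL2 hn2L j u
      have h2 := hmu u hgood
      refine lt_of_le_of_lt h1 (lt_of_lt_of_le hu ?_)
      linarith
  have hcard : ∑ u ∈ (Ico (L ^ k) ((L + 1) ^ k)).filter good,
      pr (Tk k) (L + 1) (E1 u) ≤ ((L : ℝ) + 1) ^ k * Real.exp (-lam) := by
    calc ∑ u ∈ (Ico (L ^ k) ((L + 1) ^ k)).filter good, pr (Tk k) (L + 1) (E1 u) ≤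
          ∑ u ∈ (Ico (L ^ k) ((L + 1) ^ k)).filter good, Real.exp (-lam) := by
          apply Finset.sum_le_sum
          intro u hu
          rw [mem_filter, mem_Ico] at hu
          refine (hE1 u hu.1.1 hu.1.2).trans (Real.exp_le_exp.mpr (neg_le_neg ?_))
          refine hkey.trans ?_
          exact div_le_div_of_nonneg_right (hmu u hu.2) (by positivity)
      _ ≤ ∑ u ∈ Ico (L ^ k) ((L + 1) ^ k), Real.exp (-lam) :=
          Finset.sum_le_sum_of_subset_of_nonneg (Finset.filter_subset _ _)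
            (fun _ _ _ => (Real.exp_pos _).le)
      _ = ((L + 1) ^ k - L ^ k : ℕ) * Real.exp (-lam) := by
          rw [Finset.sum_const, Nat.card_Ico, nsmul_eq_mul]
      _ ≤ _ := by
          apply mul_le_mul_of_nonneg_right _ (Real.exp_pos _).le
          have : (L + 1) ^ k - L ^ k ≤ (L + 1) ^ k := Nat.sub_le _ _
          exact_mod_cast this
  calc pr (Tk k) (L + 1) _ ≤ pr (Tk k) (L + 1)
        (fun t => E0 t ∨ ∃ u ∈ (Ico (L ^ k) ((L + 1) ^ k)).filter good, E1 u t) :=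
        pr_mono hT _ hsub
    _ ≤ pr (Tk k) (L + 1) E0 +
        pr (Tk k) (L + 1) (fun t => ∃ u ∈ (Ico (L ^ k) ((L + 1) ^ k)).filter good, E1 u t) :=
        pr_or hT _ _ _
    _ ≤ C₁ / (L : ℝ) ^ 2 + ∑ u ∈ (Ico (L ^ k) ((L + 1) ^ k)).filter good,
          pr (Tk k) (L + 1) (E1 u) :=
        add_le_add (hBND L hL1') (pr_union hT _ _ _)
    _ ≤ C₁ / (L : ℝ) ^ 2 + 1 / (L : ℝ) ^ 2 :=
        add_le_add le_rfl (hcard.trans (expb k L hL1' lam hlam.ge))
    _ = (C₁ + 1) / (L : ℝ) ^ 2 := by rw [add_div]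

end Pool.Agent.V5helper37.RC
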